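import Pool.Agent.Helper59.ADP.AsmF
import Pool.Agent.Helper91.HN.Num11

/-!
# Adaptive randomised algorithms with zero tests for `k`-SAT: functions of Pfaffians, final
-/

set_option autoImplicit false

namespace Pool.Agent.Helper59.ADP

theorem adaptiveF : AdaptiveIntF :=
  adaptiveF_of fun K0 A R h1 h2 h3 => Pool.ADN.numADP3F K0 A R h1 h2 h3

end Pool.Agent.Helper59.ADP
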