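import Pool.Agent.Helper59.ADP.Conv
import Pool.Agent.Helper10.AD.CellOnes
import Pool.Agent.Helper28.AD.Amp
import Pool.Agent.Helper34.AD.SatSize
import Pool.Agent.Helper34.AD.Avg
import Pool.Agent.Helper91.HN.Num9

/-!
# Adaptive randomised algorithms with zero tests for `k`-SAT: assembly
-/

set_option autoImplicit false

namespace Pool.Agent.Helper59.ADP

open MvPolynomial Pool.SatDet Pool.Agent.Helper76 Pool.Agent.Helper76.CDET Pool.AD Pool.GT
open scoped BigOperators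

theorem Pr_rt_maj {Ω : Type} [Fintype Ω] (w : Ω → ℝ) (E : Ω → Prop) :
    Pool.RT.Pr w E = Pool.MAJ.Pr w E := rfl

/-- error reduction, with the number of positive answers -/
def AmpOnes : Prop := ∀ (α δ : ℝ), α < 1 → 0 < δ → ∃ R : ℕ, 1 ≤ R ∧
    ∀ (e1 e2 : ℝ), 0 ≤ e1 → 0 ≤ e2 → e1 + e2 ≤ α →
    ∀ (F : Type) [Field F] (V Ya Om : Type) [DecidableEq V] [Fintype Om] (N : ℕ) (w : Om → ℝ)
      (_ : ∀ i, 0 ≤ w i) (_ : ∑ i, w i = 1) (f : Om → Fin N → MvPolynomial (V ⊕ Ya) F)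
      (tr : Om → DT N), ∃ (Om' : Type) (_ : Fintype Om') (w' : Om' → ℝ)
      (f' : Om' → Fin (R * N) → MvPolynomial (V ⊕ Ya) F) (tr' : Om' → DT (R * N)),
      (∀ i, 0 ≤ w' i) ∧ ∑ i, w' i = 1 ∧ (∀ i v, ∃ j u, f' i v = f j u) ∧
      (∀ h, (∀ i a, ((tr i).ones a).card ≤ h) → ∀ i a, ((tr' i).ones a).card ≤ R * h) ∧
      ∀ S : Finset V,
        (Pool.MAJ.Pr w (fun i => (tr i).eval (ans (f i) S) = false) ≤ e1 →
          Pool.MAJ.Pr w' (fun i => (tr' i).eval (ans (f' i) S) = false) ≤ δ) ∧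
        (Pool.MAJ.Pr w (fun i => (tr i).eval (ans (f i) S) = true) ≤ e2 →
          Pool.MAJ.Pr w' (fun i => (tr' i).eval (ans (f' i) S) = true) ≤ δ)

/-- the degree of a product of tests -/
theorem prod_ones_deg {F : Type} [Field F] {V Ya : Type} [Fintype V] {T m N h : ℕ}
    (f : Fin N → MvPolynomial (V ⊕ Ya) F) (hf : ∀ v, IsPfSum T m 1 0 (f v)) (U : Finset (Fin N))
    (hU : U.card ≤ h) : ∀ μ ∈ (∏ v ∈ U, f v).support, ∑ e, μ (Sum.inl e) ≤ h * m :=
  prod_vdeg f U hU fun v _ μ hμ => by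
    have h1 := deg_pfsum (hf v) μ hμ
    omega

theorem adaptive_of (hamp : AmpOnes) : AdaptiveInt := by
  intro k α hk hα
  obtain ⟨d, rfl⟩ : ∃ d, k = d + 2 := ⟨k - 2, by omega⟩
  obtain ⟨K, hK, HK⟩ := exists_cells_sat d (by omega)
  obtain ⟨R, hR, HR⟩ := hamp α (1 / 64) hα (by norm_num)
  obtain ⟨C, hC, HC⟩ := Pool.ADN.numADP K (8 * K) R hK (by omega) hR
  refine ⟨C, hC, ?_⟩
  intro F _ Ya Ω _ n N h e m T μ ε₁ ε₂ hn hN hh he hT hμ hm h1 h2 h12 p f t hp hp1 hf hdeg hones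
    hyes hno
  rcases HC n N h e m T (n ^ (d + 2)) μ hn (Nat.le_self_pow (by omega) n) hN hh he hT hμ
    (by exact_mod_cast hm) with hdone | ⟨D, l, b, hD, hl, hb, hbud, HB⟩
  · exact hdone
  obtain ⟨B, N0, G, hB1, hN0, hN0K, hG⟩ := HK n (8 * (R * N)) D l b
    (Nat.mul_pos (by norm_num) (Nat.mul_pos hR hN)) hD hbud
  have hB : 1 ≤ B := by
    rcases Nat.eq_zero_or_pos B with h0 | h0
    · subst h0
      have h3 : 1 ≤ b * n ^ (d + 1) := Nat.mul_pos hb (pow_pos hn _)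
      omega
    · exact h0
  obtain ⟨τ, T0, q, hτ, hq0, hq1, hT0, Hcf⟩ := HB B hB (by
    calc b * n ^ (d + 2) = b * n ^ (d + 1) * n := by ring
      _ ≤ K * B * n := Nat.mul_le_mul_right _ hB1)
  obtain ⟨Ω', _, p', f', t', hp', hp1', hff, hones', hpr⟩ := HR ε₁ ε₂ h1 h2 h12 F _ Ya Ω N p hp hp1
    f t
  have hones2 := hones' h hones
  have hf' : ∀ i v, IsPfSum T m 1 0 (f' i v) := by
    intro i v
    obtain ⟨j, u, hju⟩ := hff i v
    rw [hju]
    exact hf j u
  have hyes' : ∀ S, SatP n (d + 2) S →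
      Pool.RT.Pr p' (fun ω => (t' ω).eval (ans (f' ω) S) = false) ≤ 1 / 64 := fun S hS =>
    (hpr S).1 (hyes S hS)
  have hno' : ∀ S, ¬ SatP n (d + 2) S →
      Pool.RT.Pr p' (fun ω => (t' ω).eval (ans (f' ω) S) = true) ≤ 1 / 64 := fun S hS =>
    (hpr S).2 (hno S hS)
  -- the number of derivative steps
  set L := 8 * K * (R * h) * e * D with hL
  have hcf : ∀ κ : ℝ, κ ≤ 1 / 8 → (1 : ℝ) / 2 ≤
      1 - (1 / 64 + 1 / 64 / (1 / 8) + (R * N : ℕ) / (8 * (R * N) : ℕ) + κ) := by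
    intro κ hκ
    have h3 : ((R * N : ℕ) : ℝ) / (8 * (R * N) : ℕ) = 1 / 8 := by
      have h4 : ((R * N : ℕ) : ℝ) ≠ 0 := by
        exact_mod_cast (Nat.mul_pos hR hN).ne'
      rw [Nat.cast_mul 8]
      field_simp
      norm_num
    rw [h3]
    linarith
  have hJ : 1 ≤ 8 * (R * N) := Nat.mul_pos (by norm_num) (Nat.mul_pos hR hN)
  rcases hdeg with hdeg | hdeg
  · -- bounded individual degrees
    obtain ⟨ν', hν'⟩ := exists_nu t' f'
    refine Hcf _ (hcf 0 (by norm_num)) ?_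
    have hmain := adapt_cell_ones_pf p' hp' hp1' t' hones2 ((R * N + 1) ^ (R * h))
      (fun i => br_ones (t' i) (hones2 i)) f' hJ hD hl hB (fun _ => G) (1 / 64) (1 / 64) 0
      (fun c j hj => hyes' _ (G.yes c j hj)) (fun c j x hx => hno' _ (G.no c j x hx)) ν' hν' L
      (fun c j => by
        have h3 : ∀ i, ¬ L < ∑ y, ν' i (G.S c j.1) (Sum.inl (G.Y j y)) := by
          intro i
          rw [not_lt]
          refine (sum_le_indiv (t' i) (hones2 i) (f' i) (lam := e) ?_ G c j _ (hν' i _).1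
            (hν' i _).2).trans ?_
          · intro v ν hν C
            obtain ⟨j, u, hju⟩ := hff i v
            rw [hju] at hν
            exact hdeg j u ν hν C
          · rw [hL]
            calc D * (e * (R * h)) = 1 * ((R * h) * e * D) := by ring
              _ ≤ (8 * K) * ((R * h) * e * D) := Nat.mul_le_mul_right _ (by omega)
              _ = _ := by ring
        rw [Pool.RT.Pr_eq]
        refine le_of_eq (Finset.sum_eq_zero fun i _ => ?_)
        rw [if_neg (h3 i), mul_zero])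
      (1 / 8) (by norm_num) τ T0 hτ hT le_rfl hf' q hq0 hq1 hT0
    exact hmain
  · -- arbitrary tests
    obtain ⟨I, _, w', ρ, G', ν', hw0, hw1, hy, hno2, hν, hk⟩ := random_gadget p' hp' hp1' t' f'
      (SatP n (d + 2)) (1 / 64) (1 / 64) hyes' hno' (dg := R * h * m)
      (fun ω a => prod_ones_deg (f' ω) (hf' ω) _ (hones2 ω a)) G hN0 hG 8 L (by norm_num)
      (by
        rw [hL]
        have h3 : 0 < 8 * K * (R * h) * e * D := by positivity
        exact h3)
      (by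
        have h3 : (m : ℝ) ≤ e * n ^ (d + 2) := by
          have h4 : (1 : ℝ) ≤ N := by exact_mod_cast hN
          have h5 : (0 : ℝ) ≤ (n : ℝ) ^ (d + 2) := by positivity
          have h6 : (m : ℝ) ≤ N * m := by
            have : (0 : ℝ) ≤ m := Nat.cast_nonneg _
            nlinarith
          calc (m : ℝ) ≤ N * m := h6
            _ ≤ μ * n ^ (d + 2) := hm
            _ ≤ e * n ^ (d + 2) := mul_le_mul_of_nonneg_right hdeg h5
        have h4 : m ≤ e * n ^ (d + 2) := by exact_mod_cast h3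
        have h5 : m ≤ e * (K * N0) := h4.trans (Nat.mul_le_mul_left _ hN0K)
        calc 8 * (D * (R * h * m)) ≤ 8 * (D * (R * h * (e * (K * N0)))) :=
              Nat.mul_le_mul_left _ (Nat.mul_le_mul_left _ (Nat.mul_le_mul_left _ h5))
          _ = N0 * L := by rw [hL]; ring)
    refine Hcf _ (hcf (1 / 8) le_rfl) ?_
    exact adapt_cell_ones_pf w' hw0 hw1 (fun i => t' (ρ i)) (fun i => hones2 (ρ i))
      ((R * N + 1) ^ (R * h)) (fun i => br_ones (t' (ρ i)) (hones2 (ρ i))) (fun i => f' (ρ i))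
      hJ hD hl hB G' (1 / 64) (1 / 64) (1 / 8) hy hno2 ν' hν L hk (1 / 8) (by norm_num) τ T0 hτ hT
      le_rfl (fun i v => hf' (ρ i) v) q hq0 hq1 hT0

end Pool.Agent.Helper59.ADP
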