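import Pool.Agent.Helper59.ADP.Conv3
import Pool.Agent.Helper59.ADP.Asm
import Pool.Agent.Helper10.AD3.Pf
import Pool.Agent.Helper15.AD.AmpOnes
import Pool.Agent.Helper34.AD.AvgK
import Pool.Agent.Helper34.AD.RS

/-!
# Adaptive randomised algorithms with zero tests for `k`-SAT: assembly, version 3
-/

set_option autoImplicit false

namespace Pool.Agent.Helper59.ADP

open MvPolynomial Pool.SatDet Pool.Agent.Helper76 Pool.Agent.Helper76.CDET Pool.AD Pool.AD3 Pool.GT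
open scoped BigOperators

/-- NUMBERS for version 3 -/
def NumAD3 (K0 A R : ℕ) : Prop := ∃ C : ℕ, 1 ≤ C ∧
    ∀ (n N h e m T V : ℕ) (μ : ℝ), 1 ≤ n → n ≤ V → 1 ≤ N → 1 ≤ h → 1 ≤ e → 1 ≤ T → 1 ≤ μ →
    (N * m : ℝ) ≤ μ * V →
    Real.exp (n / (N * (C * h * e * μ) ^ (C * e))) ≤ 3 * N * T ∨
    ∃ (D p t l b s : ℕ), 1 ≤ D ∧ p.Prime ∧ 1 ≤ t ∧ 1 ≤ l ∧ l ≤ p ∧ 1 ≤ b ∧
      K0 * ((8 * (R * N)) * D * (p ^ t + l * p * b)) ≤ n ∧ 8 * (R * h) * (t - 1) ≤ l ∧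
      16 * (R * h) * s ≤ D ∧
      ∀ B : ℕ, 1 ≤ B → b * V ≤ K0 * B * n → ∃ (τ T0 : ℕ) (q : ℝ), 1 ≤ τ ∧
      (T0 : ℝ) ≤ τ * (1 / (8 * (R * h)) * (l * B) - ((t - 1 : ℕ) : ℝ) * B) ∧ 0 < q ∧ q < 1 ∧
      ((p ^ t : ℕ) : ℝ) ^ s * q ^ T0 ≤ 1 / 2 ∧
      ∀ cf : ℝ, 1 / 2 ≤ cf →
        q ^ (0 + A * e * s * (1 - 1)) * (cf * ((p ^ t : ℕ) : ℝ) ^ s) ≤
          2 * Pool.GT.RP T m 1 (A * e * s) q *
            (((R * N) * (2 * D).choose s * ((A * e * s + 1) * (2 ^ s * (p ^ t) ^ τ)) : ℕ) : ℝ) →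
        Real.exp (n / (N * (C * h * e * μ) ^ (C * e))) ≤ 3 * N * T

/-- the theorem for `h ≤ N` -/
theorem adaptive3_aux (hnum : ∀ K0 A R : ℕ, 1 ≤ K0 → 1 ≤ A → 1 ≤ R → NumAD3 K0 A R)
    (d : ℕ) (hd : 1 ≤ d) (α : ℝ) (hα : α < 1) : ∃ C : ℕ, 1 ≤ C ∧
    ∀ (F : Type) [Field F] (Ya Ω : Type) [Fintype Ω] (n N h e m T : ℕ) (μ ε₁ ε₂ : ℝ),
    1 ≤ n → 1 ≤ N → 1 ≤ h → h ≤ N → 1 ≤ e → 1 ≤ T → 1 ≤ μ → (N * m : ℝ) ≤ μ * n ^ (d + 2) →
    0 ≤ ε₁ → 0 ≤ ε₂ → ε₁ + ε₂ ≤ α →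
    ∀ (p : Ω → ℝ) (f : Ω → Fin N → MvPolynomial (Clause n (d + 2) ⊕ Ya) F) (t : Ω → DT N),
    (∀ ω, 0 ≤ p ω) → ∑ ω, p ω = 1 →
    (∀ ω v, IsPfSum T m 1 0 (f ω v)) →
    ((∀ ω v, ∀ ν ∈ (f ω v).support, ∀ C, ν (Sum.inl C) ≤ e) ∨ μ ≤ e) →
    (∀ ω a, ((t ω).ones a).card ≤ h) →
    (∀ S, SatP n (d + 2) S → Pool.MAJ.Pr p (fun ω => (t ω).eval (ans (f ω) S) = false) ≤ ε₁) →
    (∀ S, ¬ SatP n (d + 2) S → Pool.MAJ.Pr p (fun ω => (t ω).eval (ans (f ω) S) = true) ≤ ε₂) →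
    Real.exp (n / (N * (C * h * e * μ) ^ (C * e))) ≤ 3 * N * T := by
  obtain ⟨K0, hK0, HK⟩ := exists_code_sat d hd
  obtain ⟨R, hR, HR⟩ := amplify_ones α (1 / 64) hα (by norm_num)
  obtain ⟨C, hC, HC⟩ := hnum K0 (128 * K0 * R) R hK0 (Nat.mul_pos (by omega) hR) hR
  refine ⟨C, hC, ?_⟩
  intro F _ Ya Ω _ n N h e m T μ ε₁ ε₂ hn hN hh hhN he hT hμ hm h1 h2 h12 p f t hp hp1 hf hdeg hones
    hyes hno
  rcases HC n N h e m T (n ^ (d + 2)) μ hn (Nat.le_self_pow (by omega) n) hN hh he hT hμ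
    (by exact_mod_cast hm) with hdone | ⟨D, P, tt, l, b, s, hD, hP, htt, hl, hlP, hb, hbud, ha, hs, HB⟩
  · exact hdone
  have hRN : 1 ≤ R * N := Nat.mul_pos hR hN
  have hRh : 1 ≤ R * h := Nat.mul_pos hR hh
  have hJ : 1 ≤ 8 * (R * N) := Nat.mul_pos (by norm_num) hRN
  have : NeZero P := ⟨hP.ne_zero⟩
  have : Fact P.Prime := ⟨hP⟩
  have hcK : Fintype.card (Fin tt → ZMod P) = P ^ tt := by
    rw [Fintype.card_fun, ZMod.card, Fintype.card_fin]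
  obtain ⟨B, N0, G, hB1, hN0, hN0K, hG⟩ := HK (Fin tt → ZMod P) (ZMod P) n (8 * (R * N)) D l b
    (rsw P tt l) (by rw [hcK]; exact pow_pos hP.pos _) (fun i a => rsw_surj htt i a) hJ hD
    (by rw [hcK, ZMod.card]; exact hbud)
  have hB : 1 ≤ B := by
    rcases Nat.eq_zero_or_pos B with h0 | h0
    · subst h0
      have h3 : 1 ≤ b * n ^ (d + 1) := Nat.mul_pos hb (pow_pos hn _)
      omega
    · exact h0
  obtain ⟨τ, T0, q, hτ1, hτ, hq0, hq1, hT0, Hcf⟩ := HB B hB (by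
    calc b * n ^ (d + 2) = b * n ^ (d + 1) * n := by ring
      _ ≤ K0 * B * n := Nat.mul_le_mul_right _ hB1)
  obtain ⟨Ω', _, p', f', t', hp', hp1', hff, hones', hpr⟩ := HR ε₁ ε₂ h1 h2 h12 F _ Ya Ω N p hp hp1
    f t
  have hones2 := hones' h hones
  have hf' : ∀ i v, IsPfSum T m 1 0 (f' i v) := by
    intro i v
    obtain ⟨j, u, hju⟩ := hff i v
    rw [hju]
    exact hf j u
  have hyes' : ∀ S, SatP n (d + 2) S →
      Pool.RT.Pr p' (fun ω => (t' ω).eval (ans (f' ω) S) = false) ≤ 1 / 64 := fun S hS =>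
    (hpr S).1 (hyes S hS)
  have hno' : ∀ S, ¬ SatP n (d + 2) S →
      Pool.RT.Pr p' (fun ω => (t' ω).eval (ans (f' ω) S) = true) ≤ 1 / 64 := fun S hS =>
    (hpr S).2 (hno S hS)
  have hcf : ∀ κ : ℝ, κ ≤ 1 / 8 → (1 : ℝ) / 2 ≤
      1 - (1 / 64 + 1 / 64 / (1 / 2) + (R * N : ℕ) / (8 * (R * N) : ℕ) + κ) := by
    intro κ hκ
    have h3 : ((R * N : ℕ) : ℝ) / (8 * (R * N) : ℕ) = 1 / 8 := by
      have h4 : ((R * N : ℕ) : ℝ) ≠ 0 := by exact_mod_cast (by omega : R * N ≠ 0)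
      rw [Nat.cast_mul 8]
      field_simp
      norm_num
    rw [h3]
    linarith
  have hRh0 : (0 : ℝ) < (R * h : ℕ) := by exact_mod_cast hRh
  have hδa : (((tt - 1 : ℕ)) : ℝ) ≤ 1 / (8 * (R * h : ℕ)) * l := by
    have h3 : (8 * (R * h : ℕ) * (tt - 1 : ℕ) : ℝ) ≤ l := by exact_mod_cast ha
    rw [div_mul_eq_mul_div, le_div_iff₀ (by positivity)]
    linarith
  have hδ : 4 * (R * h : ℕ) * (1 / (8 * (R * h : ℕ) : ℝ)) ≤ 1 - 1 / 2 := by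
    have h3 : 4 * ((R * h : ℕ) : ℝ) * (1 / (8 * (R * h : ℕ) : ℝ)) = 1 / 2 := by
      field_simp
      norm_num
    rw [h3]
    norm_num
  have hs' : 8 * (R * h : ℕ) * (s : ℝ) ≤ (1 - 1 / 2) * D := by
    have h3 : (16 * (R * h : ℕ) * s : ℝ) ≤ D := by exact_mod_cast hs
    linarith
  have hwd : ∀ k k' : Fin tt → ZMod P, k ≠ k' →
      (Finset.univ.filter fun i => rsw P tt l k i = rsw P tt l k' i).card ≤ tt - 1 := by
    intro k k' hkk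
    have := rsw_agree hP hlP k k' hkk
    omega
  have hτ' : (T0 : ℝ) ≤ τ * (1 / (8 * (R * h : ℕ)) * (l * B) - ((tt - 1 : ℕ) : ℝ) * B) := by
    refine hτ.trans (le_of_eq ?_)
    push_cast
    ring
  have hT0' : (Fintype.card (Fin tt → ZMod P) : ℝ) ^ s * q ^ T0 ≤ 1 / 2 := by
    rw [hcK]
    exact hT0
  rcases hdeg with hdeg | hdeg
  · -- bounded individual degrees
    refine Hcf _ (hcf 0 (by norm_num)) ?_
    have hmain := adapt3_indiv_pf p' hp' hp1' t' hones2 f' hJ hD hl hB (fun _ => G) (1 / 64) (1 / 64)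
      (fun c j hj => hyes' _ (G.yes c j hj)) (fun c j x hx => hno' _ (G.no c j x hx))
      (128 * K0 * R * e) (by
        intro i v ν hν C
        obtain ⟨j, u, hju⟩ := hff i v
        rw [hju] at hν
        refine (hdeg j u ν hν C).trans ?_
        exact Nat.le_mul_of_pos_left _ (Nat.mul_pos (by omega) hR))
      (1 / 2) (by norm_num) (by norm_num) hwd _ hδa hδ hs' hτ1 hτ' le_rfl hf' q hq0 hq1 hT0'
    rw [hcK] at hmain
    rw [add_zero (1 / 64 + 1 / 64 / (1 / 2) + (R * N : ℕ) / (8 * (R * N) : ℕ) : ℝ)]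
    exact hmain
  · -- arbitrary tests
    have hdg : ∀ ω a, ∀ μ ∈ (∏ v ∈ (t' ω).ones a, f' ω v).support, ∑ e, μ (Sum.inl e) ≤
        R * h * m := fun ω a => prod_ones_deg (f' ω) (hf' ω) _ (hones2 ω a)
    obtain ⟨I, _, w', ρ, G', ν', hw0, hw1, hy, hno2, hν, hk⟩ := random_code p' hp' hp1' t' f'
      (SatP n (d + 2)) (1 / 64) (1 / 64) hyes' hno' hdg G hN0 hG 8 (8 * K0 * R * e * D)
      (by norm_num)
      (by
        have h3 : 0 < 8 * K0 * R * e * D := by positivity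
        exact h3)
      (by
        have h3 : (h * m : ℝ) ≤ e * n ^ (d + 2) := by
          have h4 : (h : ℝ) ≤ N := by exact_mod_cast hhN
          have h5 : (0 : ℝ) ≤ (n : ℝ) ^ (d + 2) := by positivity
          calc (h : ℝ) * m ≤ N * m := mul_le_mul_of_nonneg_right h4 (Nat.cast_nonneg _)
            _ ≤ μ * n ^ (d + 2) := hm
            _ ≤ e * n ^ (d + 2) := mul_le_mul_of_nonneg_right hdeg h5
        have h4 : h * m ≤ e * n ^ (d + 2) := by exact_mod_cast h3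
        have h5 : h * m ≤ e * (K0 * N0) := h4.trans (Nat.mul_le_mul_left _ hN0K)
        calc 8 * (D * (R * h * m)) = 8 * (D * (R * (h * m))) := by ring
          _ ≤ 8 * (D * (R * (e * (K0 * N0)))) :=
              Nat.mul_le_mul_left _ (Nat.mul_le_mul_left _ (Nat.mul_le_mul_left _ h5))
          _ = N0 * (8 * K0 * R * e * D) := by ring)
    refine Hcf _ (hcf (1 / 8) le_rfl) ?_
    have hmain := adapt3_avg_pf w' hw0 hw1 (fun i => t' (ρ i)) (fun i => hones2 (ρ i))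
      (fun i => f' (ρ i)) hJ hD hl hB G' (1 / 64) (1 / 64) (1 / 8) hy hno2 ν' hν
      (128 * K0 * R * e) (8 * K0 * R * e * D) (by
        have h3 : 0 < 8 * K0 * R * e * D := by positivity
        exact h3) hk (1 / 2) (by norm_num) (by norm_num)
      (by
        push_cast
        have : (8 : ℝ) * (8 * K0 * R * e * D) = (1 - 1 / 2) * (128 * K0 * R * e * D) := by ring
        exact this.le)
      hwd _ hδa hδ hs' hτ1 hτ' le_rfl (fun i v => hf' (ρ i) v) q hq0 hq1 hT0'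
    rw [hcK] at hmain
    exact hmain

theorem adaptive3_of (hnum : ∀ K0 A R : ℕ, 1 ≤ K0 → 1 ≤ A → 1 ≤ R → NumAD3 K0 A R) :
    AdaptiveInt3 := by
  intro k α hk hα
  obtain ⟨d, rfl⟩ : ∃ d, k = d + 2 := ⟨k - 2, by omega⟩
  obtain ⟨C, hC, HC⟩ := adaptive3_aux hnum d (by omega) α hα
  refine ⟨C, hC, ?_⟩
  intro F _ Ya Ω _ n N h e m T μ ε₁ ε₂ hn hN hh he hT hμ hm h1 h2 h12 p f t hp hp1 hf hdeg hones
    hyes hno
  have hh' : 1 ≤ min h N := le_min hh hN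
  have hC' : (1 : ℝ) ≤ C := by exact_mod_cast hC
  have he' : (1 : ℝ) ≤ e := by exact_mod_cast he
  have hN' : (1 : ℝ) ≤ N := by exact_mod_cast hN
  have hm1 : (1 : ℝ) ≤ (min h N : ℕ) := by exact_mod_cast hh'
  refine le_trans (Real.exp_le_exp.2 ?_) (HC F Ya Ω n N (min h N) e m T μ ε₁ ε₂ hn hN hh'
    (min_le_right _ _) he hT hμ hm h1 h2 h12 p f t hp hp1 hf hdeg (fun ω a => ?_) hyes hno)
  · have h3 : ((min h N : ℕ) : ℝ) ≤ h := by exact_mod_cast min_le_left h N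
    have h4 : (0 : ℝ) < C * (min h N : ℕ) * e * μ := by positivity
    refine div_le_div_of_nonneg_left (Nat.cast_nonneg _) (by positivity) ?_
    refine mul_le_mul_of_nonneg_left ?_ (by linarith)
    refine pow_le_pow_left₀ h4.le ?_ _
    have h5 : (0 : ℝ) ≤ μ := by linarith
    gcongr
  · refine le_min (hones ω a) ?_
    exact (Finset.card_le_univ _).trans (le_of_eq (Fintype.card_fin N))

end Pool.Agent.Helper59.ADP
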