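import Pool.Agent.Helper59.ADP.ConvF
import Pool.Agent.Helper59.ADP.Asm
import Pool.Agent.Helper34.AD.Fun3
import Pool.Agent.Helper34.AD.FunDeg
import Pool.Agent.Helper15.AD.AmpOnes
import Pool.Agent.Helper34.AD.AvgK
import Pool.Agent.Helper34.AD.RS

/-!
# Adaptive randomised algorithms with zero tests for `k`-SAT: assembly, functions of Pfaffians
-/

set_option autoImplicit false

namespace Pool.Agent.Helper59.ADP

open MvPolynomial Pool.SatDet Pool.Agent.Helper76 Pool.Agent.Helper76.CDET Pool.AD Pool.AD3 Pool.GT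
open Pool.FunK
open scoped BigOperators

theorem RP_mono {r r' m m' d L : ℕ} {q : ℝ} (hr : r ≤ r') (hm : m ≤ m') (hq : q < 1) :
    RP r m d L q ≤ RP r' m' d L q := by
  unfold RP
  have h1 : (r : ℝ) ≤ r' := by exact_mod_cast hr
  have hq' : 0 ≤ 1 - q := by linarith
  have h2 : ((m + L + 1 : ℕ) : ℝ) ≤ (m' + L + 1 : ℕ) := by exact_mod_cast (by omega)
  refine mul_le_mul h1 (Finset.sum_le_sum fun j _ => ?_) (Finset.sum_nonneg fun j _ => ?_)
    (Nat.cast_nonneg _)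
  · refine div_le_div_of_nonneg_right (pow_le_pow_left₀ (by positivity) ?_ _) (by positivity)
    refine mul_le_mul_of_nonneg_right ?_ (by positivity)
    linarith
  · positivity

/-- NUMBERS for version 3 -/
def NumAD3F (K0 A R : ℕ) : Prop := ∃ C : ℕ, 1 ≤ C ∧
    ∀ (n N h e m T V : ℕ) (μ : ℝ), 1 ≤ n → n ≤ V → 1 ≤ N → 1 ≤ h → 1 ≤ e → 1 ≤ T → 1 ≤ μ →
    (N * m : ℝ) ≤ μ * V →
    Real.exp (n / (N * (C * h * e * μ) ^ (C * e))) ≤ 3 * N * T ∨
    ∃ (D p t l b s : ℕ), 1 ≤ D ∧ p.Prime ∧ 1 ≤ t ∧ 1 ≤ l ∧ l ≤ p ∧ 1 ≤ b ∧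
      K0 * ((8 * (R * N)) * D * (p ^ t + l * p * b)) ≤ n ∧ 8 * (R * h) * (t - 1) ≤ l ∧
      16 * (R * h) * s ≤ D ∧ A * e * s ≤ n ∧
      ∀ B : ℕ, 1 ≤ B → b * V ≤ K0 * B * n → ∃ (τ T0 : ℕ) (q : ℝ), 1 ≤ τ ∧
      (T0 : ℝ) ≤ τ * (1 / (8 * (R * h)) * (l * B) - ((t - 1 : ℕ) : ℝ) * B) ∧ 0 < q ∧ q < 1 ∧
      ((p ^ t : ℕ) : ℝ) ^ s * q ^ T0 ≤ 1 / 2 ∧
      ∀ cf : ℝ, 1 / 2 ≤ cf →
        q ^ (0 + A * e * s * (1 - 1)) * (cf * ((p ^ t : ℕ) : ℝ) ^ s) ≤
          2 * Pool.GT.RP (T * 2 ^ (A * e * s)) m 1 (A * e * s) q *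
            (((R * N) * (2 * D).choose s * ((A * e * s + 1) * (2 ^ s * (p ^ t) ^ τ)) : ℕ) : ℝ) →
        Real.exp (n / (N * (C * h * e * μ) ^ (C * e))) ≤ 3 * N * T

/-- the theorem for `h ≤ N` -/
theorem adaptiveF_aux (hnum : ∀ K0 A R : ℕ, 1 ≤ K0 → 1 ≤ A → 1 ≤ R → NumAD3F K0 A R)
    (d : ℕ) (hd : 1 ≤ d) (α : ℝ) (hα : α < 1) : ∃ C : ℕ, 1 ≤ C ∧
    ∀ (F : Type) [Field F] (Ya Ω : Type) [Fintype Ω] (n N h e m T a g : ℕ) (μ ε₁ ε₂ : ℝ),
    1 ≤ n → 1 ≤ N → 1 ≤ h → h ≤ N → 1 ≤ e → 1 ≤ T → 1 ≤ μ →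
    (N * m * min g n : ℝ) ≤ μ * n ^ (d + 2) →
    0 ≤ ε₁ → 0 ≤ ε₂ → ε₁ + ε₂ ≤ α →
    ∀ (p : Ω → ℝ) (f : Ω → Fin N → MvPolynomial (Clause n (d + 2) ⊕ Ya) F) (t : Ω → DT N),
    (∀ ω, 0 ≤ p ω) → ∑ ω, p ω = 1 →
    (∀ ω v, IsFunSum T a g m 1 0 (f ω v)) →
    ((∀ ω v, ∀ ν ∈ (f ω v).support, ∀ C, ν (Sum.inl C) ≤ e) ∨ N * m * g ≤ e * n ^ (d + 2)) →
    (∀ ω a, ((t ω).ones a).card ≤ h) →
    (∀ S, SatP n (d + 2) S → Pool.MAJ.Pr p (fun ω => (t ω).eval (ans (f ω) S) = false) ≤ ε₁) →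
    (∀ S, ¬ SatP n (d + 2) S → Pool.MAJ.Pr p (fun ω => (t ω).eval (ans (f ω) S) = true) ≤ ε₂) →
    Real.exp (n / (N * (C * h * e * μ) ^ (C * e))) ≤ 3 * N * (T * 2 ^ a) := by
  obtain ⟨K0, hK0, HK⟩ := exists_code_sat d hd
  obtain ⟨R, hR, HR⟩ := amplify_ones α (1 / 64) hα (by norm_num)
  obtain ⟨C, hC, HC⟩ := hnum K0 (128 * K0 * R) R hK0 (Nat.mul_pos (by omega) hR) hR
  refine ⟨C, hC, ?_⟩
  intro F _ Ya Ω _ n N h e m T a g μ ε₁ ε₂ hn hN hh hhN he hT hμ hm h1 h2 h12 p f t hp hp1 hf hdeg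
    hones hyes hno
  have hT2 : 1 ≤ T * 2 ^ a := Nat.mul_pos hT (by positivity)
  have hm2 : (N * (m * min g n : ℕ) : ℝ) ≤ μ * (n ^ (d + 2) : ℕ) := by
    rw [Nat.cast_mul m, Nat.cast_pow, ← mul_assoc]
    exact hm
  have hgoal : Real.exp (n / (N * (C * h * e * μ) ^ (C * e))) ≤ 3 * N * (T * 2 ^ a : ℕ) := by
    rcases HC n N h e (m * min g n) (T * 2 ^ a) (n ^ (d + 2)) μ hn (Nat.le_self_pow (by omega) n) hN
      hh he hT2 hμ hm2 with hdone | ⟨D, P, tt, l, b, s, hD, hP, htt, hl, hlP, hb, hbud, ha, hs,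
        hAn, HB⟩
    · exact hdone
    have hRN : 1 ≤ R * N := Nat.mul_pos hR hN
    have hRh : 1 ≤ R * h := Nat.mul_pos hR hh
    have hJ : 1 ≤ 8 * (R * N) := Nat.mul_pos (by norm_num) hRN
    have : NeZero P := ⟨hP.ne_zero⟩
    have : Fact P.Prime := ⟨hP⟩
    have hcK : Fintype.card (Fin tt → ZMod P) = P ^ tt := by
      rw [Fintype.card_fun, ZMod.card, Fintype.card_fin]
    obtain ⟨B, N0, G, hB1, hN0, hN0K, hG⟩ := HK (Fin tt → ZMod P) (ZMod P) n (8 * (R * N)) D l b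
      (rsw P tt l) (by rw [hcK]; exact pow_pos hP.pos _) (fun i a => rsw_surj htt i a) hJ hD
      (by rw [hcK, ZMod.card]; exact hbud)
    have hB : 1 ≤ B := by
      rcases Nat.eq_zero_or_pos B with h0 | h0
      · subst h0
        have h3 : 1 ≤ b * n ^ (d + 1) := Nat.mul_pos hb (pow_pos hn _)
        omega
      · exact h0
    obtain ⟨τ, T0, q, hτ1, hτ, hq0, hq1, hT0, Hcf⟩ := HB B hB (by
      calc b * n ^ (d + 2) = b * n ^ (d + 1) * n := by ring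
        _ ≤ K0 * B * n := Nat.mul_le_mul_right _ hB1)
    obtain ⟨Ω', _, p', f', t', hp', hp1', hff, hones', hpr⟩ := HR ε₁ ε₂ h1 h2 h12 F _ Ya Ω N p hp
      hp1 f t
    have hones2 := hones' h hones
    have hf' : ∀ i v, IsFunSum T a g m 1 0 (f' i v) := by
      intro i v
      obtain ⟨j, u, hju⟩ := hff i v
      rw [hju]
      exact hf j u
    have hyes' : ∀ S, SatP n (d + 2) S →
        Pool.RT.Pr p' (fun ω => (t' ω).eval (ans (f' ω) S) = false) ≤ 1 / 64 := fun S hS =>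
      (hpr S).1 (hyes S hS)
    have hno' : ∀ S, ¬ SatP n (d + 2) S →
        Pool.RT.Pr p' (fun ω => (t' ω).eval (ans (f' ω) S) = true) ≤ 1 / 64 := fun S hS =>
      (hpr S).2 (hno S hS)
    have hcf : ∀ κ : ℝ, κ ≤ 1 / 8 → (1 : ℝ) / 2 ≤
        1 - (1 / 64 + 1 / 64 / (1 / 2) + (R * N : ℕ) / (8 * (R * N) : ℕ) + κ) := by
      intro κ hκ
      have h3 : ((R * N : ℕ) : ℝ) / (8 * (R * N) : ℕ) = 1 / 8 := by
        have h4 : ((R * N : ℕ) : ℝ) ≠ 0 := by exact_mod_cast (by omega : R * N ≠ 0)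
        rw [Nat.cast_mul 8]
        field_simp
        norm_num
      rw [h3]
      linarith
    have hRh0 : (0 : ℝ) < (R * h : ℕ) := by exact_mod_cast hRh
    have hδa : (((tt - 1 : ℕ)) : ℝ) ≤ 1 / (8 * (R * h : ℕ)) * l := by
      have h3 : (8 * (R * h : ℕ) * (tt - 1 : ℕ) : ℝ) ≤ l := by exact_mod_cast ha
      rw [div_mul_eq_mul_div, le_div_iff₀ (by positivity)]
      linarith
    have hδ : 4 * (R * h : ℕ) * (1 / (8 * (R * h : ℕ) : ℝ)) ≤ 1 - 1 / 2 := by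
      have h3 : 4 * ((R * h : ℕ) : ℝ) * (1 / (8 * (R * h : ℕ) : ℝ)) = 1 / 2 := by
        field_simp
        norm_num
      rw [h3]
      norm_num
    have hs' : 8 * (R * h : ℕ) * (s : ℝ) ≤ (1 - 1 / 2) * D := by
      have h3 : (16 * (R * h : ℕ) * s : ℝ) ≤ D := by exact_mod_cast hs
      linarith
    have hwd : ∀ k k' : Fin tt → ZMod P, k ≠ k' →
        (Finset.univ.filter fun i => rsw P tt l k i = rsw P tt l k' i).card ≤ tt - 1 := by
      intro k k' hkk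
      have := rsw_agree hP hlP k k' hkk
      omega
    have hτ' : (T0 : ℝ) ≤ τ * (1 / (8 * (R * h : ℕ)) * (l * B) - ((tt - 1 : ℕ) : ℝ) * B) := by
      refine hτ.trans (le_of_eq ?_)
      push_cast
      ring
    have hT0' : (Fintype.card (Fin tt → ZMod P) : ℝ) ^ s * q ^ T0 ≤ 1 / 2 := by
      rw [hcK]
      exact hT0
    -- the space of the functions
    have hRP : RP (T * (a + min g (128 * K0 * R * e * s)).choose (min g (128 * K0 * R * e * s)))
        (m * min g (128 * K0 * R * e * s)) 1 (128 * K0 * R * e * s) q ≤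
        RP (T * 2 ^ a * 2 ^ (128 * K0 * R * e * s)) (m * min g n) 1 (128 * K0 * R * e * s) q := by
      refine RP_mono ?_ ?_ hq1
      · rw [mul_assoc T (2 ^ a), ← pow_add]
        refine Nat.mul_le_mul_left _ ?_
        refine (Nat.choose_le_two_pow _ _).trans (Nat.pow_le_pow_right (by norm_num) ?_)
        exact Nat.add_le_add_left (min_le_right _ _) _
      · exact Nat.mul_le_mul_left _ (min_le_min le_rfl hAn)
    rcases hdeg with hdeg | hdeg
    · -- bounded individual degrees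
      refine Hcf _ (hcf 0 (by norm_num)) ?_
      have hmain := adapt3_indiv_fun p' hp' hp1' t' hones2 f' hJ hD hl hB (fun _ => G) (1 / 64)
        (1 / 64)
        (fun c j hj => hyes' _ (G.yes c j hj)) (fun c j x hx => hno' _ (G.no c j x hx))
        (128 * K0 * R * e) (by
          intro i v ν hν C
          obtain ⟨j, u, hju⟩ := hff i v
          rw [hju] at hν
          refine (hdeg j u ν hν C).trans ?_
          exact Nat.le_mul_of_pos_left _ (Nat.mul_pos (by omega) hR))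
        (1 / 2) (by norm_num) (by norm_num) hwd _ hδa hδ hs' hτ1 hτ' le_rfl hf' q hq0 hq1 hT0'
      rw [hcK] at hmain
      rw [add_zero (1 / 64 + 1 / 64 / (1 / 2) + (R * N : ℕ) / (8 * (R * N) : ℕ) : ℝ)]
      refine hmain.trans ?_
      gcongr
    · -- arbitrary tests
      have hdg : ∀ ω a, ∀ μ ∈ (∏ v ∈ (t' ω).ones a, f' ω v).support, ∑ e, μ (Sum.inl e) ≤
          R * h * (m * g) := fun ω a => prod_ones_deg_fun (f' ω) (hf' ω) _ (hones2 ω a)
      obtain ⟨I, _, w', ρ, G', ν', hw0, hw1, hy, hno2, hν, hk⟩ := random_code p' hp' hp1' t' f'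
        (SatP n (d + 2)) (1 / 64) (1 / 64) hyes' hno' hdg G hN0 hG 8 (8 * K0 * R * e * D)
        (by norm_num)
        (by
          have h3 : 0 < 8 * K0 * R * e * D := by positivity
          exact h3)
        (by
          have h4 : h * (m * g) ≤ e * n ^ (d + 2) := by
            calc h * (m * g) ≤ N * (m * g) := Nat.mul_le_mul_right _ hhN
              _ = N * m * g := by ring
              _ ≤ e * n ^ (d + 2) := hdeg
          have h5 : h * (m * g) ≤ e * (K0 * N0) := h4.trans (Nat.mul_le_mul_left _ hN0K)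
          calc 8 * (D * (R * h * (m * g))) = 8 * (D * (R * (h * (m * g)))) := by ring
            _ ≤ 8 * (D * (R * (e * (K0 * N0)))) :=
                Nat.mul_le_mul_left _ (Nat.mul_le_mul_left _ (Nat.mul_le_mul_left _ h5))
            _ = N0 * (8 * K0 * R * e * D) := by ring)
      refine Hcf _ (hcf (1 / 8) le_rfl) ?_
      have hmain := adapt3_avg_fun w' hw0 hw1 (fun i => t' (ρ i)) (fun i => hones2 (ρ i))
        (fun i => f' (ρ i)) hJ hD hl hB G' (1 / 64) (1 / 64) (1 / 8) hy hno2 ν' hν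
        (128 * K0 * R * e) (8 * K0 * R * e * D) (by
          have h3 : 0 < 8 * K0 * R * e * D := by positivity
          exact h3) hk (1 / 2) (by norm_num) (by norm_num)
        (by
          push_cast
          have : (8 : ℝ) * (8 * K0 * R * e * D) = (1 - 1 / 2) * (128 * K0 * R * e * D) := by ring
          exact this.le)
        hwd _ hδa hδ hs' hτ1 hτ' le_rfl (fun i v => hf' (ρ i) v) q hq0 hq1 hT0'
      rw [hcK] at hmain
      refine hmain.trans ?_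
      gcongr
  refine hgoal.trans (le_of_eq ?_)
  push_cast
  ring

theorem adaptiveF_of (hnum : ∀ K0 A R : ℕ, 1 ≤ K0 → 1 ≤ A → 1 ≤ R → NumAD3F K0 A R) :
    AdaptiveIntF := by
  intro k α hk hα
  obtain ⟨d, rfl⟩ : ∃ d, k = d + 2 := ⟨k - 2, by omega⟩
  obtain ⟨C, hC, HC⟩ := adaptiveF_aux hnum d (by omega) α hα
  refine ⟨C, hC, ?_⟩
  intro F _ Ya Ω _ n N h e m T a g μ ε₁ ε₂ hn hN hh he hT hμ hm h1 h2 h12 p f t hp hp1 hf hdeg hones
    hyes hno
  have hh' : 1 ≤ min h N := le_min hh hN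
  have hC' : (1 : ℝ) ≤ C := by exact_mod_cast hC
  have he' : (1 : ℝ) ≤ e := by exact_mod_cast he
  have hN' : (1 : ℝ) ≤ N := by exact_mod_cast hN
  have hm1 : (1 : ℝ) ≤ (min h N : ℕ) := by exact_mod_cast hh'
  refine le_trans (Real.exp_le_exp.2 ?_) (HC F Ya Ω n N (min h N) e m T a g μ ε₁ ε₂ hn hN hh'
    (min_le_right _ _) he hT hμ hm h1 h2 h12 p f t hp hp1 hf hdeg (fun ω a => ?_) hyes hno)
  · have h3 : ((min h N : ℕ) : ℝ) ≤ h := by exact_mod_cast min_le_left h N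
    have h4 : (0 : ℝ) < C * (min h N : ℕ) * e * μ := by positivity
    refine div_le_div_of_nonneg_left (Nat.cast_nonneg _) (by positivity) ?_
    refine mul_le_mul_of_nonneg_left ?_ (by linarith)
    refine pow_le_pow_left₀ h4.le ?_ _
    have h5 : (0 : ℝ) ≤ μ := by linarith
    gcongr
  · refine le_min (hones ω a) ?_
    exact (Finset.card_le_univ _).trans (le_of_eq (Fintype.card_fin N))

end Pool.Agent.Helper59.ADP
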