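import Pool.Agent.Helper59.ADP.Conv
import Pool.Agent.Helper34.FunK

/-!
# Adaptive randomised algorithms with zero tests for `k`-SAT: statement and conversion, functions of
Pfaffians
-/

set_option autoImplicit false

namespace Pool.Agent.Helper59.ADP

open MvPolynomial Pool.SatDet Pool.Agent.Helper76.CDET Pool.AD Pool.FunK
open scoped BigOperators

/-- THE STATEMENT (internal form) -/
def AdaptiveIntF : Prop := ∀ (k : ℕ) (α : ℝ), 3 ≤ k → α < 1 → ∃ C : ℕ, 1 ≤ C ∧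
    ∀ (F : Type) [Field F] (Ya Ω : Type) [Fintype Ω] (n N h e m T a g : ℕ) (μ ε₁ ε₂ : ℝ),
    1 ≤ n → 1 ≤ N → 1 ≤ h → 1 ≤ e → 1 ≤ T → 1 ≤ μ → (N * m * min g n : ℝ) ≤ μ * n ^ k →
    0 ≤ ε₁ → 0 ≤ ε₂ → ε₁ + ε₂ ≤ α →
    ∀ (p : Ω → ℝ) (f : Ω → Fin N → MvPolynomial (Clause n k ⊕ Ya) F) (t : Ω → DT N),
    (∀ ω, 0 ≤ p ω) → ∑ ω, p ω = 1 →
    (∀ ω v, IsFunSum T a g m 1 0 (f ω v)) →
    ((∀ ω v, ∀ ν ∈ (f ω v).support, ∀ C, ν (Sum.inl C) ≤ e) ∨ N * m * g ≤ e * n ^ k) →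
    (∀ ω a, ((t ω).ones a).card ≤ h) →
    (∀ S, SatP n k S → Pool.MAJ.Pr p (fun ω => (t ω).eval (ans (f ω) S) = false) ≤ ε₁) →
    (∀ S, ¬ SatP n k S → Pool.MAJ.Pr p (fun ω => (t ω).eval (ans (f ω) S) = true) ≤ ε₂) →
    Real.exp (n / (N * (C * h * e * μ) ^ (C * e))) ≤ 3 * N * (T * 2 ^ a)

/-- `f` is a sum of `T` polynomials of degree at most `g` (with coefficients which are polynomials in
the further variables) in `a` Pfaffians of alternating matrices of orders at most `2 m`, whose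
entries above the diagonal have degree at most `1` in the variables `x_C`. -/
def IsSum {n k : ℕ} {F Y : Type} [Field F] (T a g m : ℕ)
    (f : MvPolynomial (Clause n k ⊕ Y) F) : Prop :=
  ∃ (s : Fin T → Fin a → ℕ) (P : Fin T → MvPolynomial (Fin a) (MvPolynomial Y F))
    (A : ∀ t i, Matrix (Fin (2 * s t i)) (Fin (2 * s t i)) (MvPolynomial (Clause n k ⊕ Y) F)),
    (∀ t i, s t i ≤ m) ∧ (∀ t, (P t).totalDegree ≤ g) ∧
    (∀ t i x y, ∀ μ ∈ (A t i x y).support, ∑ C : Clause n k, μ (Sum.inl C) ≤ 1) ∧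
    f = ∑ t,
      eval₂ (rename Sum.inr : MvPolynomial Y F →ₐ[F] MvPolynomial (Clause n k ⊕ Y) F).toRingHom
        (fun i => Pool.PF.pf (s t i) (A t i)) (P t)

theorem IsSum.toInt {n k : ℕ} {F Y : Type} [Field F] {T a g m : ℕ}
    {f : MvPolynomial (Clause n k ⊕ Y) F} (h : IsSum T a g m f) : IsFunSum T a g m 1 0 f := by
  obtain ⟨s, P, A, hs, hP, hA, hf⟩ := h
  refine ⟨s, fun _ => 1, P, A, hs, ?_, hP, hA, ?_⟩
  · intro i μ hμ
    classical
    have h1 : μ = 0 := by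
      rw [mem_support_iff, coeff_one] at hμ
      by_contra h
      exact hμ (if_neg fun h' => h h'.symm)
    simp [h1]
  · rw [hf]
    exact Finset.sum_congr rfl fun i _ => (one_mul _).symm

open Classical in
/-- the conversion -/
theorem clean_ofF (H : AdaptiveIntF) : ∀ (k : ℕ) (α : ℝ), 3 ≤ k → α < 1 → ∃ C : ℕ, 1 ≤ C ∧
    ∀ (F : Type) [Field F] (Y Ω : Type) [Fintype Ω] (n N h e m T a g : ℕ) (μ ε₁ ε₂ : ℝ),
    1 ≤ n → 1 ≤ N → 1 ≤ h → 1 ≤ e → 1 ≤ T → 1 ≤ μ → N * m * min g n ≤ μ * n ^ k →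
    0 ≤ ε₁ → 0 ≤ ε₂ → ε₁ + ε₂ ≤ α →
    ∀ (p : Ω → ℝ) (f : Ω → Fin N → MvPolynomial (Clause n k ⊕ Y) F) (t : Ω → DT N),
    (∀ ω, 0 ≤ p ω) → ∑ ω, p ω = 1 →
    (∀ ω v, IsSum T a g m (f ω v)) →
    ((∀ ω v, ∀ ν ∈ (f ω v).support, ∀ C, ν (Sum.inl C) ≤ e) ∨ N * m * g ≤ e * n ^ k) →
    (∀ ω b, ((t ω).ones b).card ≤ h) →
    (∀ φ : Finset (Clause n k), (∃ a : Fin n → Bool, ∀ C ∈ φ, Sats a C) →
      (∑ ω, if (t ω).eval (fun v => decide ((aeval (Sum.elim (fun C => if C ∈ φ then 0 else X (Sum.inl C))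
        (fun y => X (Sum.inr y))) (f ω v) : MvPolynomial (Clause n k ⊕ Y) F) ≠ 0)) = false
          then p ω else 0) ≤ ε₁) →
    (∀ φ : Finset (Clause n k), (¬ ∃ a : Fin n → Bool, ∀ C ∈ φ, Sats a C) →
      (∑ ω, if (t ω).eval (fun v => decide ((aeval (Sum.elim (fun C => if C ∈ φ then 0 else X (Sum.inl C))
        (fun y => X (Sum.inr y))) (f ω v) : MvPolynomial (Clause n k ⊕ Y) F) ≠ 0)) = true
          then p ω else 0) ≤ ε₂) →
    Real.exp (n / (N * (C * h * e * μ) ^ (C * e))) ≤ 3 * N * T * 2 ^ a := by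
  intro k α hk hα
  obtain ⟨C, hC, HC⟩ := H k α hk hα
  refine ⟨C, hC, ?_⟩
  intro F _ Y Ω _ n N h e m T a g μ ε₁ ε₂ hn hN hh he hT hμ hm h1 h2 h12 p f t hp hp1 hf hdeg ht
    hyes hno
  have hans : ∀ (φ : Finset (Clause n k)) (ω : Ω),
      ans (f ω) φᶜ = fun v => decide ((aeval (Sum.elim (fun C => if C ∈ φ then 0 else X (Sum.inl C))
        (fun y => X (Sum.inr y))) (f ω v) : MvPolynomial (Clause n k ⊕ Y) F) ≠ 0) := by
    intro φ ω
    funext v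
    have hrestr : restr φᶜ (f ω v) =
        (aeval (Sum.elim (fun C => if C ∈ φ then 0 else X (Sum.inl C))
          (fun y => X (Sum.inr y))) (f ω v) : MvPolynomial (Clause n k ⊕ Y) F) := by
      unfold restr
      congr 2
      congr 1
      funext C
      by_cases h : C ∈ φ
      · rw [if_neg (by simpa using h), if_pos h]
      · rw [if_pos (by simpa using h), if_neg h]
    unfold ans
    rw [hrestr]
  have hpr : ∀ (φ : Finset (Clause n k)) (b : Bool),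
      Pool.MAJ.Pr p (fun ω => (t ω).eval (ans (f ω) φᶜ) = b) =
      ∑ ω, if (t ω).eval (fun v => decide ((aeval (Sum.elim (fun C => if C ∈ φ then 0 else X (Sum.inl C))
        (fun y => X (Sum.inr y))) (f ω v) : MvPolynomial (Clause n k ⊕ Y) F) ≠ 0)) = b
          then p ω else 0 := by
    intro φ b
    rw [Pool.MAJ.Pr_eq]
    refine Finset.sum_congr rfl fun ω _ => ?_
    rw [hans]
    split_ifs <;> simp
  rw [mul_assoc (3 * (N : ℝ)) T (2 ^ a)]
  refine HC F Y Ω n N h e m T a g μ ε₁ ε₂ hn hN hh he hT hμ hm h1 h2 h12 p f t hp hp1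
    (fun ω v => (hf ω v).toInt) hdeg ht ?_ ?_
  · intro S hS
    have h3 := hyes Sᶜ ((satP_compl S).1 hS)
    rw [← hpr, compl_compl] at h3
    exact h3
  · intro S hS
    have h3 := hno Sᶜ (fun h => hS ((satP_compl S).2 h))
    rw [← hpr, compl_compl] at h3
    exact h3

end Pool.Agent.Helper59.ADP
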