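import Pool.Agent.Helper41.SAT.Gad
import Pool.Agent.Helper10.AD.Cells
import Pool.Agent.Helper59.SAT.Fin

/-!
# Adaptive randomised algorithms with zero tests: the gadget for `k`-SAT
-/

set_option autoImplicit false

namespace Pool.AD

open Finset Pool.SatDet Pool.Agent.Helper41.SAT

/-- satisfiability of the complement is monotone -/
theorem satP_mono {n k : ℕ} {S S' : Finset (Clause n k)} (h : S ⊆ S') (hS : SatP n k S) :
    SatP n k S' := by
  obtain ⟨a, ha⟩ := hS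
  exact ⟨a, fun C hC => h (ha C hC)⟩

/-- the gadget of helper41 in the form `BitsGadget` -/
theorem bits_sat {d D l L R n : ℕ} (hd : 1 ≤ d) (hD : 1 ≤ D) (hdR : d + 1 ≤ R)
    (hn : 2 * D * (2 * 2 ^ l + l * L) + R = n) :
    BitsGadget (SatP n (d + 2)) D l (L * R.choose (d + 1)) := by
  classical
  have h2l : 1 ≤ 2 ^ l := Nat.one_le_two_pow
  have hn4 : 4 + R ≤ n := by
    have h2 : 4 ≤ 2 * D * (2 * 2 ^ l + l * L) := by
      calc 4 = 2 * 1 * (2 * 1) := by norm_num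
        _ ≤ 2 * D * (2 * 2 ^ l + l * L) :=
          Nat.mul_le_mul (Nat.mul_le_mul_left _ hD) (by omega)
    omega
  have hk : d + 2 ≤ n := by omega
  have hcard : Fintype.card (Gv D l L R) = Fintype.card (Fin n) := by
    rw [card_Gv, hn, Fintype.card_fin]
  obtain ⟨ε⟩ : Nonempty (Gv D l L R ≃ Fin n) := ⟨Fintype.equivOfCardEq hcard⟩
  obtain ⟨P0, -, hP0⟩ := Finset.exists_subset_card_eq (s := (Finset.univ : Finset (Fin R)))
    (n := d) (by rw [Finset.card_univ, Fintype.card_fin]; omega)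
  refine ⟨Xg (d := d) ε, Yg ε P0 hP0, Zg ε P0 hP0, inj_XY ε P0 hP0,
    fun x hx => (mem_Zg.1 hx).2.1 x rfl, fun y hy => (mem_Zg.1 hy).2.2 y rfl, ?_, ?_⟩
  · intro c S hS hS2
    exact h1_sat ε P0 hP0 hd (by rw [hcard, Fintype.card_fin]; exact hk) c S hS hS2
  · intro c
    refine ⟨Finset.univ.filter fun C => ¬ Sats (ac ε c) C, ⟨ac ε c, fun C hC => ?_⟩, ?_⟩
    · exact Finset.mem_filter.2 ⟨Finset.mem_univ _, hC⟩
    · exact h2_mem ε P0 hP0 c

/-- the sizes -/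
theorem exists_bits_sat (d : ℕ) (hd : 1 ≤ d) : ∃ K : ℕ, 1 ≤ K ∧ ∀ n D l L : ℕ, 1 ≤ D →
    K * (D * (2 ^ l + l * L)) ≤ n →
    ∃ B, L * n ^ (d + 1) ≤ K * B ∧ BitsGadget (SatP n (d + 2)) D l B := by
  refine ⟨8 * (d + 1) * (4 ^ (d + 1) * (d + 1).factorial), ?_, ?_⟩
  · have := Nat.factorial_pos (d + 1)
    have h4 : 0 < 4 ^ (d + 1) := by positivity
    exact Nat.succ_le_of_lt (by positivity)
  intro n D l L hD hn
  set W := 4 ^ (d + 1) * (d + 1).factorial with hW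
  have hW1 : 1 ≤ W := by
    have := Nat.factorial_pos (d + 1)
    exact Nat.succ_le_of_lt (by positivity)
  have h2l : 1 ≤ 2 ^ l := Nat.one_le_two_pow
  set Q := D * (2 ^ l + l * L) with hQ
  have hQ1 : 1 ≤ Q := Nat.succ_le_of_lt (Nat.mul_pos hD (by omega))
  have hn8 : 8 * Q * (d + 1) ≤ n := by
    refine le_trans ?_ hn
    calc 8 * Q * (d + 1) = 8 * (d + 1) * 1 * Q := by ring
      _ ≤ 8 * (d + 1) * W * Q := Nat.mul_le_mul_right _ (Nat.mul_le_mul_left _ hW1)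
  have hn8' : 8 * Q ≤ n := le_trans (Nat.le_mul_of_pos_right _ (by omega)) hn8
  have hn8d : 8 * (d + 1) ≤ n := le_trans (by nlinarith) hn8
  have hU : 2 * D * (2 * 2 ^ l + l * L) ≤ 4 * Q := by
    calc 2 * D * (2 * 2 ^ l + l * L) ≤ 2 * D * (2 * (2 ^ l + l * L)) :=
          Nat.mul_le_mul_left _ (by omega)
      _ = 4 * Q := by rw [hQ]; ring
  obtain ⟨R, hR⟩ : ∃ R, 2 * D * (2 * 2 ^ l + l * L) + R = n :=
    ⟨n - 2 * D * (2 * 2 ^ l + l * L), by omega⟩
  have hR2 : n ≤ 2 * R := by omega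
  refine ⟨L * R.choose (d + 1), ?_, bits_sat hd hD (by omega) hR⟩
  have h1 : (R + 1 - (d + 1)) ^ (d + 1) ≤ (d + 1).factorial * R.choose (d + 1) := by
    have := Nat.pow_sub_le_descFactorial R (d + 1)
    rwa [Nat.descFactorial_eq_factorial_mul_choose] at this
  have h2 : n ≤ 4 * (R + 1 - (d + 1)) := by omega
  have h3 : n ^ (d + 1) ≤ W * R.choose (d + 1) := by
    calc n ^ (d + 1) ≤ (4 * (R + 1 - (d + 1))) ^ (d + 1) := Nat.pow_le_pow_left h2 _
      _ = 4 ^ (d + 1) * (R + 1 - (d + 1)) ^ (d + 1) := mul_pow _ _ _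
      _ ≤ 4 ^ (d + 1) * ((d + 1).factorial * R.choose (d + 1)) := Nat.mul_le_mul_left _ h1
      _ = W * R.choose (d + 1) := by rw [hW]; ring
  calc L * n ^ (d + 1) ≤ L * (W * R.choose (d + 1)) := Nat.mul_le_mul_left _ h3
    _ = 1 * (W * (L * R.choose (d + 1))) := by ring
    _ ≤ 8 * (d + 1) * (W * (L * R.choose (d + 1))) := Nat.mul_le_mul_right _ (by omega)
    _ = 8 * (d + 1) * W * (L * R.choose (d + 1)) := by ring

end Pool.AD
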