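import Pool.Agent.Helper59.ADP.Asm
import Pool.Agent.Helper15.AD.AmpOnes

/-!
# Adaptive randomised algorithms with zero tests for `k`-SAT: version 2
-/

set_option autoImplicit false

namespace Pool.Agent.Helper59.ADP

open Pool.AD

theorem adaptive2 : AdaptiveInt := by
  refine adaptive_of ?_
  intro α δ hα hδ
  obtain ⟨R, hR, H⟩ := amplify_ones α δ hα hδ
  exact ⟨R, hR, fun e1 e2 h1 h2 h12 F _ V Ya Om _ _ N w hw0 hw1 f tr =>
    H e1 e2 h1 h2 h12 F V Ya Om N w hw0 hw1 f tr⟩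

end Pool.Agent.Helper59.ADP
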